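import Pool.Agent.H.MP_c62d6e_an.A

open Real MeasureTheory Filter Topology

namespace Pool.Agent.Results.MP_c62d6e_an.NotLocal

def IsWeight (W : ℝ → ℝ) : Prop :=
  (∀ θ, 0 ≤ W θ) ∧ Function.Periodic W (2 * π) ∧ Measurable W ∧
    IntervalIntegrable W volume (-π) π ∧ 0 < ∫ θ in (-π)..π, W θ

def TrigPoly (n : ℕ) : Submodule ℝ (ℝ → ℝ) :=
  Submodule.span ℝ {f | ∃ m : ℕ, m ≤ n ∧ (f = (fun θ => cos (m * θ)) ∨ f = fun θ => sin (m * θ))}

def HasQuad (W : ℝ → ℝ) (n N : ℕ) : Prop :=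
  ∃ θ : Fin N → ℝ, Monotone θ ∧ ∃ l : ℝ, ∀ p ∈ TrigPoly n,
    ∫ t in (-π)..π, p t * W t = l * ∑ i, p (θ i)

open Pool.Agent.H.MP_c62d6e_an Pool.Agent.H.MP_8220a0_an in
theorem result : ∃ W₁ W₂ W : ℝ → ℝ, IsWeight W₁ ∧ IsWeight W₂ ∧ IsWeight W ∧
    (∀ x, W =ᶠ[𝓝 x] W₁ ∨ W =ᶠ[𝓝 x] W₂) ∧
    (∀ n ≥ 1, ∀ N ≥ 30 * n ^ 2, HasQuad W₁ n N ∧ HasQuad W₂ n N) ∧
    ∀ M : ℕ, ∃ n ≥ 1, ∀ N, HasQuad W n N → M * (30 * n ^ 2) < N := by
  have a1 : (0 : ℝ) < 2 - √2 := by linarith [s2]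
  have a2 : (0 : ℝ) < √2 - 1 := by linarith [s1]
  have n0 : ∀ θ, 0 ≤ W0 θ := Wa_nonneg _
  have i0 := int0 1
  have i1 := int1 1
  have i2 := intW 1
  simp only [Polynomial.eval_one, one_mul, Polynomial.one_comp, av_one, mul_one] at i0 i1 i2
  have p1 : ∀ θ, W0 (θ + 2 * π + π) = W0 (θ + π) := fun θ => by rw [add_right_comm, per0]
  have m1 : Measurable fun t => W0 (t + π) := meas0.comp (by fun_prop)
  refine ⟨fun t => (2 - √2) * W0 t, fun t => (√2 - 1) * W0 (t + π), Pool.Agent.H.MP_c62d6e_an.WW,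
    ⟨fun θ => mul_nonneg a1.le (n0 _), fun θ => by simp only [per0 θ], meas0.const_mul _,
      (ii0 _ _).const_mul _, by rw [intervalIntegral.integral_const_mul, i0]; positivity⟩,
    ⟨fun θ => mul_nonneg a2.le (n0 _), fun θ => by simp only [p1], m1.const_mul _,
      ii1.const_mul _, by rw [intervalIntegral.integral_const_mul, i1]; positivity⟩,
    ⟨fun θ => add_nonneg (mul_nonneg a1.le (n0 _)) (mul_nonneg a2.le (n0 _)),
      fun θ => by simp only [Pool.Agent.H.MP_c62d6e_an.WW, per0 θ, p1],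
      (meas0.const_mul _).add (m1.const_mul _), ((ii0 _ _).const_mul _).add (ii1.const_mul _),
      by rw [i2]; positivity⟩, fun x => ?_,
    fun n h N hN => ⟨quad1 _ h hN, quad2 _ h hN⟩, Pool.Agent.H.MP_c62d6e_an.main⟩
  by_cases h : 1 / 9 < sin (x / 2) ^ 2
  · right
    filter_upwards [ContinuousAt.eventually_lt continuousAt_const
      (by fun_prop : ContinuousAt (fun t => sin (t / 2) ^ 2) x) h] with t ht
    simp [Pool.Agent.H.MP_c62d6e_an.WW, W0_zero ht]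
  · left
    have : 1 / 9 < sin ((x + π) / 2) ^ 2 := by
      rw [add_div, sin_add_pi_div_two, cos_sq']; linarith
    filter_upwards [ContinuousAt.eventually_lt continuousAt_const
      (by fun_prop : ContinuousAt (fun t => sin ((t + π) / 2) ^ 2) x) this] with t ht
    simp [Pool.Agent.H.MP_c62d6e_an.WW, W0_zero ht]

end Pool.Agent.Results.MP_c62d6e_an.NotLocal
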